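import Mathlib

/-!
# Kobayashi distance, Reinhardt domains, pseudoconvexity
-/

set_option autoImplicit false

open Metric Set Filter Topology

namespace Q72.Kob

/-- The Poincare distance of the unit disc (curvature `-4`):
`p(a,b) = (1/2) log ((1 + m) / (1 - m))` with `m = |(a - b) / (1 - conj b * a)|`. -/
noncomputable def poincare (a b : ℂ) : ℝ :=
  1 / 2 * Real.log ((1 + ‖(a - b) / (1 - (starRingEnd ℂ) b * a)‖) /
    (1 - ‖(a - b) / (1 - (starRingEnd ℂ) b * a)‖))

/-- `ChainSum D z w s`: the points `z, w` of `D` are joined by a finite chain of holomorphic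
discs in `D` whose sum of Poincare distances is `s`. -/
inductive ChainSum {E : Type*} [NormedAddCommGroup E] [NormedSpace ℂ E] (D : Set E) :
    E → E → ℝ → Prop
  | nil (z : E) (hz : z ∈ D) : ChainSum D z z 0
  | cons {w v : E} {s : ℝ} (f : ℂ → E) (a b : ℂ) (ha : ‖a‖ < 1) (hb : ‖b‖ < 1)
      (hf : DifferentiableOn ℂ f (ball 0 1)) (hD : MapsTo f (ball 0 1) D) (hw : f b = w)
      (h : ChainSum D w v s) : ChainSum D (f a) v (poincare a b + s)

/-- The Kobayashi (pseudo)distance: the infimum of the chain sums. -/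
noncomputable def kobayashi {E : Type*} [NormedAddCommGroup E] [NormedSpace ℂ E] (D : Set E)
    (z w : E) : ℝ := sInf {s : ℝ | ChainSum D z w s}

/-- Reinhardt sets: invariance under the rotations of the coordinates. -/
def IsReinhardt {n : ℕ} (D : Set (EuclideanSpace ℂ (Fin n))) : Prop :=
  ∀ z ∈ D, ∀ θ : Fin n → ℝ,
    WithLp.toLp 2 (fun i => Complex.exp (θ i * Complex.I) * z i) ∈ D

/-- Pseudoconvexity: existence of a continuous plurisubharmonic exhaustion function. -/
def IsPseudoconvex {E : Type*} [NormedAddCommGroup E] [NormedSpace ℂ E] (D : Set E) : Prop :=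
  IsOpen D ∧ ∃ u : E → ℝ, ContinuousOn u D ∧
    (∀ a b : E, (∀ ζ ∈ closedBall (0 : ℂ) 1, a + ζ • b ∈ D) →
      u a ≤ Real.circleAverage (fun ζ => u (a + ζ • b)) 0 1) ∧
    ∀ c : ℝ, IsCompact {z ∈ D | u z ≤ c}

/-- The distance to the boundary. -/
noncomputable def bdist {E : Type*} [NormedAddCommGroup E] (D : Set E) (z : E) : ℝ :=
  infDist z (frontier D)

/-- `N(ζ) = #{j : ζ_j = 0 and D ∩ V_j = ∅}`. -/
noncomputable def zeroCount {n : ℕ} (D : Set (EuclideanSpace ℂ (Fin n)))
    (ζ : EuclideanSpace ℂ (Fin n)) : ℕ :=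
  {j : Fin n | ζ j = 0 ∧ ∀ z ∈ D, z j ≠ 0}.ncard

end Q72.Kob
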