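import Mathlib
import Pool.Agent.Q72.Kob.Defs

set_option autoImplicit false

open Metric Set Filter Topology

namespace Q72.Kob

variable {E : Type*} [NormedAddCommGroup E] [NormedSpace ℂ E] {D : Set E}

lemma poincare_nonneg (a b : ℂ) : 0 ≤ poincare a b := by
  unfold poincare
  set m := ‖(a - b) / (1 - (starRingEnd ℂ) b * a)‖ with hm
  have hm0 : 0 ≤ m := norm_nonneg _
  have : 0 ≤ Real.log ((1 + m) / (1 - m)) := by
    by_cases h1 : m = 1
    · rw [h1]; simp
    · rw [← Real.log_abs]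
      apply Real.log_nonneg
      rw [abs_div, le_div_iff₀ (abs_pos.2 (sub_ne_zero.2 (Ne.symm h1))), one_mul]
      rw [abs_of_nonneg (by linarith : 0 ≤ 1 + m)]
      rw [abs_le]; constructor <;> linarith
  linarith

lemma poincare_zero_left_le {b : ℂ} {δ : ℝ} (hδ : 0 < δ) (hb : ‖b‖ ≤ 1 - δ) :
    poincare 0 b ≤ 1 / 2 * Real.log (2 / δ) := by
  unfold poincare
  have e1 : (0 - b) / (1 - (starRingEnd ℂ) b * 0) = -b := by simp
  rw [e1, norm_neg]
  have h0 : 0 ≤ ‖b‖ := norm_nonneg _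
  have h1 : 0 < 1 - ‖b‖ := by linarith
  have : Real.log ((1 + ‖b‖) / (1 - ‖b‖)) ≤ Real.log (2 / δ) := by
    apply Real.log_le_log
    · positivity
    · rw [div_le_div_iff₀ h1 hδ]
      nlinarith
  linarith

/-- chain sums are nonnegative -/
lemma ChainSum.nonneg {z w : E} {s : ℝ} (h : ChainSum D z w s) : 0 ≤ s := by
  induction h with
  | nil => exact le_rfl
  | cons f a b ha hb hf hD hw h ih => exact add_nonneg (poincare_nonneg a b) ih

lemma ChainSum.trans {z w v : E} {s t : ℝ} (h : ChainSum D z w s) (h' : ChainSum D w v t) :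
    ChainSum D z v (s + t) := by
  induction h with
  | nil => simpa using h'
  | cons f a b ha hb hf hD hw h ih =>
    rw [add_assoc]
    exact ChainSum.cons f a b ha hb hf hD hw (ih h')

lemma ChainSum.single (f : ℂ → E) (a b : ℂ) (ha : ‖a‖ < 1) (hb : ‖b‖ < 1)
    (hf : DifferentiableOn ℂ f (ball 0 1)) (hD : MapsTo f (ball 0 1) D) :
    ChainSum D (f a) (f b) (poincare a b) := by
  have h0 : f b ∈ D := hD (by simpa using hb)
  have := ChainSum.cons f a b ha hb hf hD rfl (ChainSum.nil (f b) h0)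
  simpa using this

lemma kobayashi_le {z w : E} {s : ℝ} (h : ChainSum D z w s) : kobayashi D z w ≤ s :=
  csInf_le ⟨0, fun _ ht => ht.nonneg⟩ h

lemma chain_ball {w x : E} {r : ℝ} (hx : ‖x - w‖ < r) (hb : ball w r ⊆ D) :
    (∃ s, ChainSum D w x s) ∧ ∃ s, ChainSum D x w s := by
  have hr : 0 < r := lt_of_le_of_lt (norm_nonneg _) hx
  obtain ⟨q, hq1, hq2⟩ := exists_between (show ‖x - w‖ / r < 1 by rwa [div_lt_one hr])
  have hq0 : 0 < q := lt_of_le_of_lt (by positivity) hq1
  set f : ℂ → E := fun ζ => w + ζ • (((q : ℂ)⁻¹) • (x - w)) with hf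
  have hd : DifferentiableOn ℂ f (ball 0 1) := by
    rw [hf]; fun_prop
  have hmap : MapsTo f (ball 0 1) D := by
    intro ζ hζ
    apply hb
    rw [mem_ball, dist_eq_norm] at hζ ⊢
    rw [sub_zero] at hζ
    simp only [hf]
    rw [add_sub_cancel_left, norm_smul, norm_smul, norm_inv, Complex.norm_real,
      Real.norm_of_nonneg hq0.le]
    have h1 : q⁻¹ * ‖x - w‖ < r := by
      rw [inv_mul_lt_iff₀ hq0]
      rw [div_lt_iff₀ hr] at hq1
      exact hq1
    have h2 : 0 ≤ q⁻¹ * ‖x - w‖ := by positivity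
    nlinarith [norm_nonneg ζ]
  have hf0 : f 0 = w := by simp [hf]
  have hfq : f q = x := by
    simp only [hf]
    rw [smul_smul, mul_inv_cancel₀ (by exact_mod_cast hq0.ne'), one_smul]
    abel
  have hqn : ‖(q : ℂ)‖ < 1 := by
    rw [Complex.norm_real, Real.norm_of_nonneg hq0.le]; exact hq2
  constructor
  · have := ChainSum.single f 0 q (by simp) hqn hd hmap
    rw [hf0, hfq] at this
    exact ⟨_, this⟩
  · have := ChainSum.single f q 0 hqn (by simp) hd hmap
    rw [hf0, hfq] at this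
    exact ⟨_, this⟩

/-- In a domain every two points are joined by a chain. -/
lemma exists_chain (hD : IsOpen D) (hc : IsPreconnected D) {z w : E} (hz : z ∈ D) (hw : w ∈ D) :
    ∃ s, ChainSum D z w s := by
  set u : Set E := {w | w ∈ D ∧ ∃ s, ChainSum D z w s} with hu
  have huo : IsOpen u := by
    rw [Metric.isOpen_iff]
    rintro x ⟨hx, s, hs⟩
    obtain ⟨r, hr, hrD⟩ := Metric.isOpen_iff.1 hD x hx
    refine ⟨r, hr, fun y hy => ⟨hrD hy, ?_⟩⟩
    rw [mem_ball, dist_eq_norm] at hy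
    obtain ⟨t, ht⟩ := (chain_ball hy hrD).1
    exact ⟨_, hs.trans ht⟩
  have h1 : D ⊆ u := by
    apply hc.subset_of_closure_inter_subset huo
    · exact ⟨z, hz, hz, 0, ChainSum.nil z hz⟩
    · rintro x ⟨hx, hxD⟩
      refine ⟨hxD, ?_⟩
      obtain ⟨r, hr, hrD⟩ := Metric.isOpen_iff.1 hD x hxD
      obtain ⟨y, ⟨hyD, s, hs⟩, hyx⟩ := Metric.mem_closure_iff.1 hx r hr
      rw [dist_comm, dist_eq_norm] at hyx
      obtain ⟨t, ht⟩ := (chain_ball hyx hrD).2
      exact ⟨_, hs.trans ht⟩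
  exact (h1 hw).2

end Q72.Kob
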