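import Mathlib
import Pool.Agent.Q72.Kob.Defs

/-!
# Locally finite polyhedra minus zero sets are pseudoconvex
-/

set_option autoImplicit false

open Metric Set Filter Topology

namespace Q72.Kob

variable {E : Type*} [NormedAddCommGroup E] [NormedSpace ℂ E]

/-- sub mean value inequality for moduli of holomorphic functions -/
lemma norm_le_avg {f : ℂ → ℂ} (hf : DiffContOnCl ℂ f (ball 0 1)) {v : ℂ → ℝ}
    (hv : ContinuousOn v (sphere 0 1)) (h : ∀ ζ ∈ sphere (0 : ℂ) 1, ‖f ζ‖ ≤ v ζ) :
    ‖f 0‖ ≤ Real.circleAverage v 0 1 := by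
  have h1 : Real.circleAverage f 0 1 = f 0 := by
    apply DiffContOnCl.circleAverage
    simpa using hf
  rw [← h1]
  have h2 : ‖Real.circleAverage f 0 1‖ ≤ Real.circleAverage (fun ζ => ‖f ζ‖) 0 1 := by
    rw [Real.circleAverage, Real.circleAverage, norm_smul, smul_eq_mul]
    have h3 : ‖(2 * Real.pi)⁻¹‖ = (2 * Real.pi)⁻¹ := by
      rw [Real.norm_of_nonneg]; positivity
    rw [h3]
    apply mul_le_mul_of_nonneg_left _ (by positivity)
    exact intervalIntegral.norm_integral_le_integral_norm (by positivity)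
  have hfc : ContinuousOn f (closedBall 0 1) := by
    have := hf.continuousOn
    rwa [closure_ball (0 : ℂ) one_ne_zero] at this
  refine h2.trans (Real.circleAverage_mono ?_ ?_ ?_)
  · apply ContinuousOn.circleIntegrable zero_le_one
    exact (hfc.mono sphere_subset_closedBall).norm
  · exact ContinuousOn.circleIntegrable zero_le_one hv
  · intro ζ hζ
    rw [abs_one] at hζ
    exact h ζ hζ

/-- A continuous exhaustion which is a supremum of moduli of holomorphic functions. -/
lemma isPseudoconvex_of_family {ι : Type*} {D : Set E} (hD : IsOpen D) (F : ι → E → ℂ)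
    (hF : ∀ α, DifferentiableOn ℂ (F α) D) (u : E → ℝ) (hu : ContinuousOn u D)
    (hle : ∀ α, ∀ z ∈ D, ‖F α z‖ ≤ u z)
    (hsup : ∀ z ∈ D, ∀ c, (∀ α, ‖F α z‖ ≤ c) → u z ≤ c)
    (hexh : ∀ c : ℝ, IsCompact {z ∈ D | u z ≤ c}) : IsPseudoconvex D := by
  refine ⟨hD, u, hu, fun a b hab => ?_, hexh⟩
  have ha : a ∈ D := by simpa using hab 0 (by simp)
  have hP : Differentiable ℂ fun ζ : ℂ => a + ζ • b := by fun_prop
  have hU : MapsTo (fun ζ : ℂ => a + ζ • b) (closedBall 0 1) D := fun ζ hζ => hab ζ hζ
  apply hsup a ha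
  intro α
  have h1 : DifferentiableOn ℂ (fun ζ : ℂ => F α (a + ζ • b))
      ((fun ζ : ℂ => a + ζ • b) ⁻¹' D) :=
    (hF α).comp hP.differentiableOn fun _ h => h
  have h2 : DiffContOnCl ℂ (fun ζ : ℂ => F α (a + ζ • b)) (ball 0 1) := by
    apply DifferentiableOn.diffContOnCl
    rw [closure_ball (0 : ℂ) one_ne_zero]
    exact h1.mono fun ζ hζ => hab ζ hζ
  have h3 := norm_le_avg (v := fun ζ => u (a + ζ • b)) h2 ?_ ?_
  · simpa using h3
  · exact hu.comp hP.continuous.continuousOn fun ζ hζ => hab ζ (sphere_subset_closedBall hζ)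
  · intro ζ hζ
    exact hle α _ (hab ζ (sphere_subset_closedBall hζ))

variable {ι : Type*} [Nonempty ι] {g : ι → E → ℂ} {h : E → ℂ}

/-- the polyhedron -/
def Poly (g : ι → E → ℂ) (h : E → ℂ) : Set E := {z | (∀ α, ‖g α z‖ < 1) ∧ h z ≠ 0}

/-- local finiteness: near each point of the polyhedron finitely many functions dominate -/
def LocFin (g : ι → E → ℂ) : Prop :=
  ∀ z0, (∀ α, ‖g α z0‖ < 1) → ∃ S : Finset ι, ∀ᶠ z in 𝓝 z0, ∀ α, ∃ β ∈ S, ‖g α z‖ ≤ ‖g β z‖

lemma LocFin.eventually (hg : ∀ α, Continuous (g α)) (hf : LocFin g) {z0 : E}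
    (h0 : ∀ α, ‖g α z0‖ < 1) : ∃ S : Finset ι, S.Nonempty ∧
      (∀ᶠ z in 𝓝 z0, ∀ α, ∃ β ∈ S, ‖g α z‖ ≤ ‖g β z‖) ∧ ∀ᶠ z in 𝓝 z0, ∀ β ∈ S, ‖g β z‖ < 1 := by
  obtain ⟨S, hS⟩ := hf z0 h0
  refine ⟨S, ?_, hS, ?_⟩
  · obtain ⟨β, hβ, _⟩ := hS.self_of_nhds (Classical.arbitrary ι)
    exact ⟨β, hβ⟩
  · rw [Filter.eventually_all_finset]
    intro β _
    exact (hg β).norm.continuousAt.eventually_lt continuousAt_const (h0 β)

lemma isOpen_poly (hg : ∀ α, Continuous (g α)) (hh : Continuous h) (hf : LocFin g) :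
    IsOpen (Poly g h) := by
  rw [isOpen_iff_mem_nhds]
  rintro z0 ⟨h0, hz0⟩
  obtain ⟨S, _, hS, hS1⟩ := hf.eventually hg h0
  have h3 : ∀ᶠ z in 𝓝 z0, h z ≠ 0 := hh.continuousAt.eventually_ne hz0
  filter_upwards [hS, hS1, h3] with z h1 h2 h3
  refine ⟨fun α => ?_, h3⟩
  obtain ⟨β, hβ, hle⟩ := h1 α
  exact lt_of_le_of_lt hle (h2 β hβ)

/-- the sup of the moduli -/
noncomputable def rho (g : ι → E → ℂ) (z : E) : ℝ := ⨆ α, ‖g α z‖

lemma rho_eq {z : E} {S : Finset ι} (hS : S.Nonempty) (h : ∀ α, ∃ β ∈ S, ‖g α z‖ ≤ ‖g β z‖) :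
    rho g z = S.sup' hS fun α => ‖g α z‖ := by
  have hle : ∀ α, ‖g α z‖ ≤ S.sup' hS fun α => ‖g α z‖ := by
    intro α
    obtain ⟨β, hβ, hαβ⟩ := h α
    exact hαβ.trans (Finset.le_sup' (fun α => ‖g α z‖) hβ)
  apply le_antisymm
  · exact ciSup_le hle
  · apply Finset.sup'_le
    intro α _
    exact le_ciSup ⟨_, forall_mem_range.2 hle⟩ α

lemma le_rho {z : E} (h0 : ∀ α, ‖g α z‖ < 1) (α : ι) : ‖g α z‖ ≤ rho g z :=
  le_ciSup (f := fun α => ‖g α z‖) ⟨1, forall_mem_range.2 fun α => (h0 α).le⟩ α

lemma rho_lt (hg : ∀ α, Continuous (g α)) (hf : LocFin g) {z : E} (h0 : ∀ α, ‖g α z‖ < 1) :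
    rho g z < 1 := by
  obtain ⟨S, hSn, hS, _⟩ := hf.eventually hg h0
  rw [rho_eq hSn hS.self_of_nhds, Finset.sup'_lt_iff]
  exact fun α _ => h0 α

lemma rho_cont (hg : ∀ α, Continuous (g α)) (hf : LocFin g) {z : E} (h0 : ∀ α, ‖g α z‖ < 1) :
    ContinuousAt (rho g) z := by
  obtain ⟨S, hSn, hS, _⟩ := hf.eventually hg h0
  have h1 : ContinuousAt (fun z => S.sup' hSn fun α => ‖g α z‖) z := by
    apply ContinuousAt.finset_sup'_apply
    intro α _
    exact (hg α).norm.continuousAt
  apply h1.congr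
  filter_upwards [hS] with w hw
  exact (rho_eq hSn hw).symm

/-- the exhaustion function -/
noncomputable def exh (g : ι → E → ℂ) (h : E → ℂ) (z : E) : ℝ :=
  max (1 / (1 - rho g z)) (1 / ‖h z‖)

/-- **Locally finite polyhedra are pseudoconvex.** -/
theorem poly_pseudoconvex [FiniteDimensional ℂ E] (hg : ∀ α, Differentiable ℂ (g α))
    (hh : Differentiable ℂ h) (hf : LocFin g) (hb : Bornology.IsBounded (Poly g h)) :
    IsPseudoconvex (Poly g h) := by
  have hgc : ∀ α, Continuous (g α) := fun α => (hg α).continuous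
  have hnc : ∀ (c : ℂ), ‖c‖ = 1 → ∀ w : ℂ, ‖w‖ < 1 → (1 : ℂ) - c * w ≠ 0 := by
    intro c hc w hw h0
    have h1 : ‖c * w‖ < 1 := by rw [norm_mul, hc, one_mul]; exact hw
    rw [← sub_eq_zero.1 h0] at h1
    simp at h1
  have hnorm : ∀ (c : ℂ), ‖c‖ = 1 → ∀ w : ℂ, ‖w‖ < 1 → ‖(1 : ℂ) / (1 - c * w)‖ ≤ 1 / (1 - ‖w‖) := by
    intro c hc w hw
    rw [norm_div, norm_one]
    apply one_div_le_one_div_of_le (by linarith)
    have h1 := norm_sub_norm_le (1 : ℂ) (c * w)
    rw [norm_one, norm_mul, hc, one_mul] at h1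
    exact h1
  refine isPseudoconvex_of_family (ι := Option (ι × {c : ℂ // ‖c‖ = 1})) (isOpen_poly hgc
    hh.continuous hf) (fun o => match o with
      | none => fun z => 1 / h z
      | some (α, c) => fun z => 1 / (1 - (c : ℂ) * g α z)) ?_ (exh g h) ?_ ?_ ?_ ?_
  · rintro (_ | ⟨α, c⟩)
    · intro z hz
      apply DifferentiableAt.differentiableWithinAt
      simp only [one_div]
      exact (hh z).inv hz.2
    · intro z hz
      apply DifferentiableAt.differentiableWithinAt
      simp only [one_div]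
      exact (((hg α z).const_mul _).const_sub _).inv (hnc _ c.2 _ (hz.1 α))
  · intro z hz
    apply ContinuousAt.continuousWithinAt
    apply Filter.Tendsto.max
    · apply ContinuousAt.div continuousAt_const
      · exact continuousAt_const.sub (rho_cont hgc hf hz.1)
      · have := rho_lt hgc hf hz.1
        linarith
    · apply ContinuousAt.div continuousAt_const
      · exact hh.continuous.norm.continuousAt
      · exact norm_ne_zero_iff.2 hz.2
  · rintro (_ | ⟨α, c⟩) z hz
    · simp only [exh]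
      rw [norm_div, norm_one]
      exact le_max_right _ _
    · simp only [exh]
      apply le_trans _ (le_max_left _ _)
      apply (hnorm _ c.2 _ (hz.1 α)).trans
      have h1 := rho_lt hgc hf hz.1
      have h2 := le_rho hz.1 α
      apply one_div_le_one_div_of_le (by linarith)
      linarith
  · intro z hz c hc
    have h1 := rho_lt hgc hf hz.1
    simp only [exh]
    apply max_le
    · have h0c : 0 < c := by
        have := hc none
        simp only at this
        have h2 : 0 < ‖1 / h z‖ := norm_pos_iff.2 (one_div_ne_zero hz.2)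
        linarith
      have h2 : ∀ α, ‖g α z‖ ≤ 1 - 1 / c := by
        intro α
        set w := g α z with hw
        have hw1 : ‖w‖ < 1 := hz.1 α
        by_cases hw0 : w = 0
        · have h3 := hc (some (α, ⟨1, by simp⟩))
          simp only [← hw, hw0, mul_zero, sub_zero, div_one, norm_one] at h3
          rw [hw0, norm_zero]
          have : 1 / c ≤ 1 := by rw [div_le_one h0c]; exact h3
          linarith
        · have h3 := hc (some (α, ⟨(starRingEnd ℂ) w / ‖w‖, by
            rw [norm_div, RCLike.norm_conj, Complex.norm_real, norm_norm, div_self]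
            exact norm_ne_zero_iff.2 hw0⟩))
          simp only [← hw] at h3
          have hwn : (‖w‖ : ℂ) ≠ 0 := by exact_mod_cast norm_ne_zero_iff.2 hw0
          have h4 : (starRingEnd ℂ) w / ‖w‖ * w = (‖w‖ : ℂ) := by
            rw [div_mul_eq_mul_div, Complex.conj_mul', sq, mul_div_assoc, div_self hwn, mul_one]
          rw [h4] at h3
          have h5 : (1 : ℂ) - (‖w‖ : ℂ) = ((1 - ‖w‖ : ℝ) : ℂ) := by push_cast; ring
          rw [h5, norm_div, norm_one, Complex.norm_real, Real.norm_of_nonneg (by linarith)] at h3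
          rw [div_le_iff₀ (by linarith)] at h3
          have h6 : 1 / c ≤ 1 - ‖w‖ := by
            rw [div_le_iff₀ h0c]; linarith
          linarith
      have h3 : rho g z ≤ 1 - 1 / c := ciSup_le h2
      rw [div_le_iff₀ (by linarith)]
      have h4 : 1 / c ≤ 1 - rho g z := by linarith
      calc (1 : ℝ) = c * (1 / c) := by field_simp
        _ ≤ c * (1 - rho g z) := by gcongr
    · have := hc none
      simp only [norm_div, norm_one] at this
      exact this
  · intro c
    have : ProperSpace E := FiniteDimensional.proper_rclike ℂ E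
    apply Metric.isCompact_of_isClosed_isBounded
    · by_cases hc : 0 < c
      · have h1 : {z ∈ Poly g h | exh g h z ≤ c} =
            {z | (∀ α, ‖g α z‖ ≤ 1 - 1 / c) ∧ 1 / c ≤ ‖h z‖} := by
          ext z
          constructor
          · rintro ⟨hz, hle⟩
            have h1 := rho_lt hgc hf hz.1
            simp only [exh] at hle
            have h2 := (le_max_left _ _).trans hle
            have h3 := (le_max_right _ _).trans hle
            refine ⟨fun α => ?_, ?_⟩
            · refine (le_rho hz.1 α).trans ?_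
              rw [div_le_iff₀ (by linarith)] at h2
              have : 1 / c ≤ 1 - rho g z := by rw [div_le_iff₀ hc]; linarith
              linarith
            · rw [div_le_iff₀ (norm_pos_iff.2 hz.2)] at h3
              rw [div_le_iff₀ hc]; linarith
          · rintro ⟨h2, h3⟩
            have hc' : 0 < 1 / c := by positivity
            have hz1 : ∀ α, ‖g α z‖ < 1 := fun α => by linarith [h2 α]
            have hz2 : 0 < ‖h z‖ := by linarith
            refine ⟨⟨hz1, norm_pos_iff.1 hz2⟩, ?_⟩
            simp only [exh]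
            apply max_le
            · have h4 : rho g z ≤ 1 - 1 / c := ciSup_le h2
              rw [div_le_iff₀ (by linarith)]
              have h4 : 1 / c ≤ 1 - rho g z := by linarith
              calc (1 : ℝ) = c * (1 / c) := by field_simp
                _ ≤ c * (1 - rho g z) := by gcongr
            · rw [div_le_iff₀ hz2]
              rw [div_le_iff₀ hc] at h3
              linarith
        rw [h1]
        apply IsClosed.inter
        · have : {z | ∀ α, ‖g α z‖ ≤ 1 - 1 / c} = ⋂ α, {z | ‖g α z‖ ≤ 1 - 1 / c} := by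
            ext z; simp
          show IsClosed {z | ∀ α, ‖g α z‖ ≤ 1 - 1 / c}
          rw [this]
          exact isClosed_iInter fun α => isClosed_le (hgc α).norm continuous_const
        · exact isClosed_le continuous_const hh.continuous.norm
      · have h1 : {z ∈ Poly g h | exh g h z ≤ c} = ∅ := by
          ext z
          simp only [mem_ofPred_eq, mem_empty_iff_false, iff_false, not_and, not_le]
          intro hz
          simp only [exh]
          apply lt_max_of_lt_right
          have : 0 < 1 / ‖h z‖ := one_div_pos.2 (norm_pos_iff.2 hz.2)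
          linarith
        rw [h1]
        exact isClosed_empty
    · exact hb.subset fun z hz => hz.1

end Q72.Kob
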