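import Mathlib
import Pool.Agent.Q72.Kob.Poly
import Pool.Agent.Q72.Kob.Chain

/-!
# The Reinhardt domain
-/

set_option autoImplicit false

open Metric Set Filter Topology

namespace Q72.Kob

variable {n : ℕ}

/-- `ℂ^(n+3)` -/
abbrev X (n : ℕ) := EuclideanSpace ℂ (Fin (n + 3))

lemma two_val : ((2 : Fin (n + 3)) : ℕ) = 2 := by
  show 2 % (n + 3) = 2
  exact Nat.mod_eq_of_lt (by omega)

lemma one_val : ((1 : Fin (n + 3)) : ℕ) = 1 := by
  show 1 % (n + 3) = 1
  exact Nat.mod_eq_of_lt (by omega)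

lemma zero_val : ((0 : Fin (n + 3)) : ℕ) = 0 := rfl

lemma two_ne_zero' : (2 : Fin (n + 3)) ≠ 0 := by
  intro h
  have := congrArg Fin.val h
  rw [two_val, zero_val] at this
  omega

lemma two_ne_one' : (2 : Fin (n + 3)) ≠ 1 := by
  intro h
  have := congrArg Fin.val h
  rw [two_val, one_val] at this
  omega

lemma one_ne_zero' : (1 : Fin (n + 3)) ≠ 0 := by
  intro h
  have := congrArg Fin.val h
  rw [one_val, zero_val] at this
  omega

/-- the defining monomials -/
noncomputable def gfun (M : ℕ → ℕ) : Fin (n + 3) ⊕ ℕ → X n → ℂ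
  | Sum.inl i => fun z => z i / (if i = 0 then 1 else 4)
  | Sum.inr j => fun z => (z 0 ^ (2 ^ j) * z 2) ^ (M j) * z 1 / (Real.exp 1 : ℂ)

/-- the product of the coordinates in `P` -/
noncomputable def hfun (P : Finset (Fin (n + 3))) : X n → ℂ := fun z => ∏ i ∈ P, z i

/-- the domain -/
noncomputable def Dom (M : ℕ → ℕ) (P : Finset (Fin (n + 3))) : Set (X n) := Poly (gfun M) (hfun P)

lemma mem_dom {M : ℕ → ℕ} {P : Finset (Fin (n + 3))} {z : X n} : z ∈ Dom M P ↔
    ‖z 0‖ < 1 ∧ (∀ i, ‖z i‖ < 4) ∧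
    (∀ j, (‖z 0‖ ^ (2 ^ j) * ‖z 2‖) ^ (M j) * ‖z 1‖ < Real.exp 1) ∧ ∀ i ∈ P, z i ≠ 0 := by
  have h1 : ∀ i, ‖gfun M (Sum.inl i) z‖ < 1 ↔ ‖z i‖ < if i = 0 then 1 else 4 := by
    intro i
    simp only [gfun]
    split_ifs
    · rw [div_one]
    · rw [norm_div, div_lt_one] <;> norm_num
  have h2 : ∀ j, ‖gfun M (Sum.inr j) z‖ < 1 ↔
      (‖z 0‖ ^ (2 ^ j) * ‖z 2‖) ^ (M j) * ‖z 1‖ < Real.exp 1 := by
    intro j
    simp only [gfun]
    rw [norm_div, Complex.norm_real, Real.norm_of_nonneg (Real.exp_pos 1).le,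
      div_lt_one (Real.exp_pos 1), norm_mul, norm_pow, norm_mul, norm_pow]
  have h3 : hfun P z ≠ 0 ↔ ∀ i ∈ P, z i ≠ 0 := Finset.prod_ne_zero_iff
  constructor
  · rintro ⟨hz, hz'⟩
    have h4 : ‖z 0‖ < 1 := by
      have := (h1 0).1 (hz _)
      simpa using this
    refine ⟨h4, fun i => ?_, fun j => (h2 j).1 (hz _), h3.1 hz'⟩
    have := (h1 i).1 (hz _)
    split_ifs at this
    · linarith
    · exact this
  · rintro ⟨ha, hb, hc, hd⟩
    refine ⟨?_, h3.2 hd⟩
    rintro (i | j)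
    · rw [h1]
      split_ifs with hi
      · rw [hi]; exact ha
      · exact hb i
    · rw [h2]; exact hc j

lemma coord_diff (i : Fin (n + 3)) : Differentiable ℂ fun z : X n => z i :=
  (EuclideanSpace.proj i : X n →L[ℂ] ℂ).differentiable

lemma gfun_diff (M : ℕ → ℕ) (α : Fin (n + 3) ⊕ ℕ) : Differentiable ℂ (gfun M α : X n → ℂ) := by
  rcases α with i | j
  · simp only [gfun, div_eq_mul_inv]
    exact (coord_diff i).mul_const _
  · simp only [gfun, div_eq_mul_inv]
    exact (((((coord_diff 0).fun_pow _).fun_mul (coord_diff 2)).fun_pow _).fun_mul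
      (coord_diff 1)).mul_const _

lemma hfun_diff (P : Finset (Fin (n + 3))) : Differentiable ℂ (hfun P : X n → ℂ) := by
  unfold hfun
  induction P using Finset.induction_on with
  | empty => simp only [Finset.prod_empty]; exact differentiable_const 1
  | insert a s ha ih =>
    simp only [Finset.prod_insert ha]
    exact (coord_diff a).mul ih

lemma locFin {M : ℕ → ℕ} (hM : M 0 = 0) : LocFin (gfun M : Fin (n + 3) ⊕ ℕ → X n → ℂ) := by
  intro z0 h0
  have h1 : ‖z0 0‖ < 1 := by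
    have := h0 (Sum.inl 0)
    simpa [gfun] using this
  have h2 : ‖z0 2‖ < 4 := by
    have := h0 (Sum.inl 2)
    simp only [gfun] at this
    rw [if_neg two_ne_zero'] at this
    rw [norm_div, div_lt_one] at this <;> norm_num at this ⊢
    exact this
  obtain ⟨q, hq, hq1⟩ := exists_between h1
  have hq0 : 0 < q := lt_of_le_of_lt (norm_nonneg _) hq
  obtain ⟨J, hJ⟩ := exists_pow_lt_of_lt_one (show (0 : ℝ) < 1 / 4 by norm_num) hq1
  have hcont : ∀ i : Fin (n + 3), Continuous fun z : X n => ‖z i‖ :=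
    fun i => (coord_diff i).continuous.norm
  have h3 : ∀ᶠ z : X n in 𝓝 z0, ‖z 0‖ < q :=
    (hcont 0).continuousAt.eventually_lt continuousAt_const hq
  have h4 : ∀ᶠ z : X n in 𝓝 z0, ‖z 2‖ < 4 :=
    (hcont 2).continuousAt.eventually_lt continuousAt_const h2
  refine ⟨Finset.univ.disjSum (Finset.range (J + 1)), ?_⟩
  filter_upwards [h3, h4] with z hz hz2
  rintro (i | j)
  · exact ⟨Sum.inl i, by simp, le_rfl⟩
  · by_cases hj : j < J + 1
    · exact ⟨Sum.inr j, by simpa using hj, le_rfl⟩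
    · refine ⟨Sum.inr 0, by simp, ?_⟩
      simp only [gfun, hM, pow_zero, one_mul]
      rw [norm_div, norm_div]
      gcongr
      rw [norm_mul, norm_pow, norm_mul, norm_pow]
      have h5 : ‖z 0‖ ^ (2 ^ j) * ‖z 2‖ ≤ 1 := by
        have h6 : ‖z 0‖ ^ (2 ^ j) ≤ q ^ J := by
          calc ‖z 0‖ ^ (2 ^ j) ≤ q ^ (2 ^ j) := by gcongr
            _ ≤ q ^ J := by
              apply pow_le_pow_of_le_one hq0.le hq1.le
              have := Nat.lt_two_pow_self (n := j)
              omega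
        calc ‖z 0‖ ^ (2 ^ j) * ‖z 2‖ ≤ (1 / 4) * 4 := by
              apply mul_le_mul (h6.trans hJ.le) hz2.le (norm_nonneg _) (by norm_num)
          _ = 1 := by norm_num
      have h7 : (‖z 0‖ ^ (2 ^ j) * ‖z 2‖) ^ (M j) ≤ 1 := by
        apply pow_le_one₀ (by positivity) h5
      calc (‖z 0‖ ^ (2 ^ j) * ‖z 2‖) ^ (M j) * ‖z 1‖ ≤ 1 * ‖z 1‖ := by gcongr
        _ = ‖z 1‖ := one_mul _

lemma dom_bounded (M : ℕ → ℕ) (P : Finset (Fin (n + 3))) : Bornology.IsBounded (Dom M P) := by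
  rw [isBounded_iff_forall_norm_le]
  refine ⟨Real.sqrt ((n + 3 : ℕ) * 16), fun z hz => ?_⟩
  rw [EuclideanSpace.norm_eq]
  apply Real.sqrt_le_sqrt
  calc ∑ i, ‖z i‖ ^ 2 ≤ ∑ _i : Fin (n + 3), (16 : ℝ) := by
        apply Finset.sum_le_sum
        intro i _
        have h1 := (mem_dom.1 hz).2.1 i
        have h2 := norm_nonneg (z i)
        nlinarith
    _ = (n + 3 : ℕ) * 16 := by simp

theorem dom_pseudoconvex {M : ℕ → ℕ} (hM : M 0 = 0) (P : Finset (Fin (n + 3))) :
    IsPseudoconvex (Dom M P) :=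
  poly_pseudoconvex (gfun_diff M) (hfun_diff P) (locFin hM) (dom_bounded M P)

lemma dom_isOpen {M : ℕ → ℕ} (hM : M 0 = 0) (P : Finset (Fin (n + 3))) : IsOpen (Dom M P) :=
  (dom_pseudoconvex hM P).1

lemma dom_reinhardt (M : ℕ → ℕ) (P : Finset (Fin (n + 3))) : IsReinhardt (Dom M P) := by
  intro z hz θ
  rw [mem_dom] at hz ⊢
  have h1 : ∀ i, ‖Complex.exp (θ i * Complex.I) * z i‖ = ‖z i‖ := by
    intro i
    rw [norm_mul, Complex.norm_exp_ofReal_mul_I, one_mul]
  simp only [h1]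
  refine ⟨hz.1, hz.2.1, hz.2.2.1, fun i hi => ?_⟩
  exact mul_ne_zero (Complex.exp_ne_zero _) (hz.2.2.2 i hi)

/-- the covering model of the domain -/
def T (M : ℕ → ℕ) (P : Finset (Fin (n + 3))) : Set (X n) :=
  {y | ‖y 0‖ < 1 ∧ (∀ i, i ∉ P → ‖y i‖ < 4) ∧
    (∀ j, (‖y 0‖ ^ (2 ^ j) * ‖y 2‖) ^ (M j) * ‖y 1‖ < Real.exp 1) ∧ ∀ i ∈ P, (y i).re < 0}

/-- the covering map -/
noncomputable def Psi (P : Finset (Fin (n + 3))) (y : X n) : X n :=
  WithLp.toLp 2 fun i => if i ∈ P then 4 * Complex.exp (y i) else y i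

lemma Psi_apply (P : Finset (Fin (n + 3))) (y : X n) (i : Fin (n + 3)) :
    Psi P y i = if i ∈ P then 4 * Complex.exp (y i) else y i := rfl

lemma Psi_cont (P : Finset (Fin (n + 3))) : Continuous (Psi P) := by
  have : Differentiable ℂ (Psi P) := by
    rw [differentiable_euclidean]
    intro i
    simp only [Psi_apply]
    split_ifs
    · exact ((coord_diff i).cexp).const_mul _
    · exact coord_diff i
  exact this.continuous

lemma Psi_image (M : ℕ → ℕ) {P : Finset (Fin (n + 3))} (h0 : (0 : Fin (n + 3)) ∉ P)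
    (h1 : (1 : Fin (n + 3)) ∉ P) (h2 : (2 : Fin (n + 3)) ∉ P) : Psi P '' T M P = Dom M P := by
  ext z
  constructor
  · rintro ⟨y, ⟨ha, hb, hc, hd⟩, rfl⟩
    rw [mem_dom]
    simp only [Psi_apply, if_neg h0, if_neg h1, if_neg h2]
    refine ⟨ha, fun i => ?_, hc, fun i hi => ?_⟩
    · split_ifs with hi
      · rw [norm_mul, Complex.norm_exp]
        have h3 : Real.exp (y i).re < 1 := by
          rw [Real.exp_lt_one_iff]; exact hd i hi
        have h4 : ‖(4 : ℂ)‖ = 4 := by norm_num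
        rw [h4]; linarith
      · exact hb i hi
    · rw [if_pos hi]
      exact mul_ne_zero (by norm_num) (Complex.exp_ne_zero _)
  · intro hz
    obtain ⟨ha, hb, hc, hd⟩ := mem_dom.1 hz
    refine ⟨WithLp.toLp 2 fun i => if i ∈ P then Complex.log (z i / 4) else z i, ?_, ?_⟩
    · refine ⟨?_, ?_, ?_, ?_⟩
      · simpa only [if_neg h0] using ha
      · intro i hi
        simpa only [if_neg hi] using hb i
      · simpa only [if_neg h0, if_neg h1, if_neg h2] using hc
      · intro i hi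
        simp only [if_pos hi]
        rw [Complex.log_re]
        apply Real.log_neg
        · exact norm_pos_iff.2 (div_ne_zero (hd i hi) (by norm_num))
        · rw [norm_div, div_lt_one] <;> norm_num
          exact hb i
    · ext i
      rw [Psi_apply]
      by_cases hi : i ∈ P
      · simp only [if_pos hi]
        rw [Complex.exp_log (div_ne_zero (hd i hi) (by norm_num))]
        field_simp
      · simp only [if_neg hi]

lemma T_star (M : ℕ → ℕ) {P : Finset (Fin (n + 3))} (h0 : (0 : Fin (n + 3)) ∉ P)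
    (h1 : (1 : Fin (n + 3)) ∉ P) (h2 : (2 : Fin (n + 3)) ∉ P) :
    StarConvex ℝ (WithLp.toLp 2 fun i => if i ∈ P then (-1 : ℂ) else 0 : X n) (T M P) := by
  rintro y ⟨ha, hb, hc, hd⟩ s t hs ht hst
  set c : X n := (WithLp.toLp 2 fun i => if i ∈ P then (-1 : ℂ) else 0 : X n) with hcdef
  have ht1 : t ≤ 1 := by linarith
  have hcoord : ∀ i, i ∉ P → (s • c + t • y) i = t • y i := by
    intro i hi
    simp [hcdef, hi]
  have hle : ∀ i, i ∉ P → ‖(s • c + t • y) i‖ ≤ ‖y i‖ := by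
    intro i hi
    rw [hcoord i hi, norm_smul, Real.norm_of_nonneg ht]
    nlinarith [norm_nonneg (y i)]
  refine ⟨?_, ?_, ?_, ?_⟩
  · exact lt_of_le_of_lt (hle 0 h0) ha
  · intro i hi
    exact lt_of_le_of_lt (hle i hi) (hb i hi)
  · intro j
    refine lt_of_le_of_lt ?_ (hc j)
    gcongr
    · exact hle 0 h0
    · exact hle 2 h2
    · exact hle 1 h1
  · intro i hi
    have e1 : (s • c + t • y) i = -(s : ℂ) + t * y i := by
      simp [hcdef, hi]
    rw [e1]
    simp only [Complex.add_re, Complex.neg_re, Complex.ofReal_re, Complex.re_ofReal_mul]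
    have h3 := hd i hi
    rcases ht.eq_or_lt with h | h
    · rw [← h] at hst ⊢
      linarith
    · nlinarith

lemma dom_connected {M : ℕ → ℕ} {P : Finset (Fin (n + 3))} (h0 : (0 : Fin (n + 3)) ∉ P)
    (h1 : (1 : Fin (n + 3)) ∉ P) (h2 : (2 : Fin (n + 3)) ∉ P) : IsConnected (Dom M P) := by
  rw [← Psi_image M h0 h1 h2]
  apply IsConnected.image _ _ (Psi_cont P).continuousOn
  apply IsPathConnected.isConnected
  apply (T_star M h0 h1 h2).isPathConnected
  have he := Real.exp_pos 1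
  refine ⟨?_, ?_, ?_, ?_⟩
  · simp [h0]
  · intro i hi
    simp [hi]
  · intro j
    simp only [if_neg h1, norm_zero, mul_zero]
    exact he
  · intro i hi
    simp [hi]

end Q72.Kob
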