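import Mathlib
import Pool.Agent.Q72.Kob.Dom

/-!
# The estimates
-/

set_option autoImplicit false

open Metric Set Filter Topology

namespace Q72.Kob

variable {n : ℕ}

/-- the point with coordinates `a, b, c` in the first places, `w` on `P` and `d` elsewhere -/
noncomputable def V (P : Finset (Fin (n + 3))) (a b c w d : ℂ) : X n :=
  WithLp.toLp 2 fun i => if i = 0 then a else if i = 1 then b else if i = 2 then c else
    if i ∈ P then w else d

variable {P : Finset (Fin (n + 3))} {M : ℕ → ℕ}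

lemma V_apply (a b c w d : ℂ) (i : Fin (n + 3)) : V P a b c w d i =
    if i = 0 then a else if i = 1 then b else if i = 2 then c else if i ∈ P then w else d := rfl

lemma V_zero (a b c w d : ℂ) : V P a b c w d 0 = a := by rw [V_apply, if_pos rfl]

lemma V_one (a b c w d : ℂ) : V P a b c w d 1 = b := by
  rw [V_apply, if_neg one_ne_zero', if_pos rfl]

lemma V_two (a b c w d : ℂ) : V P a b c w d 2 = c := by
  rw [V_apply, if_neg two_ne_zero', if_neg two_ne_one', if_pos rfl]

lemma V_mem (h0 : (0 : Fin (n + 3)) ∉ P) (h1 : (1 : Fin (n + 3)) ∉ P)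
    (h2 : (2 : Fin (n + 3)) ∉ P) {a b c w d : ℂ} (ha : ‖a‖ < 1) (hb : ‖b‖ < 4) (hc : ‖c‖ < 4)
    (hw : ‖w‖ < 4) (hw0 : w ≠ 0) (hd : ‖d‖ < 4)
    (hj : ∀ j, (‖a‖ ^ (2 ^ j) * ‖c‖) ^ (M j) * ‖b‖ < Real.exp 1) :
    V P a b c w d ∈ Dom M P := by
  rw [mem_dom, V_zero, V_one, V_two]
  refine ⟨ha, fun i => ?_, hj, fun i hi => ?_⟩
  · rw [V_apply]
    split_ifs
    · linarith
    · exact hb
    · exact hc
    · exact hw
    · exact hd
  · rw [V_apply, if_neg (by rintro rfl; exact h0 hi), if_neg (by rintro rfl; exact h1 hi),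
      if_neg (by rintro rfl; exact h2 hi), if_pos hi]
    exact hw0

lemma V_diffOn {a b c w d : ℂ → ℂ} {s : Set ℂ} (ha : DifferentiableOn ℂ a s)
    (hb : DifferentiableOn ℂ b s) (hc : DifferentiableOn ℂ c s) (hw : DifferentiableOn ℂ w s)
    (hd : DifferentiableOn ℂ d s) :
    DifferentiableOn ℂ (fun ζ => V P (a ζ) (b ζ) (c ζ) (w ζ) (d ζ)) s := by
  rw [differentiableOn_euclidean]
  intro i
  simp only [V_apply]
  split_ifs
  · exact ha
  · exact hb
  · exact hc
  · exact hw
  · exact hd

lemma V_cont : Continuous fun u : ℂ × ℂ × ℂ × ℂ × ℂ => V P u.1 u.2.1 u.2.2.1 u.2.2.2.1 u.2.2.2.2 := by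
  unfold V
  apply (PiLp.continuous_toLp 2 _).comp
  apply continuous_pi
  intro i
  split_ifs <;> fun_prop

lemma exp_half_lt : Real.exp (1 / 2) < 2 := by
  have h1 : Real.exp (1 / 2) ^ 2 = Real.exp 1 := by
    rw [← Real.exp_nat_mul]; norm_num
  have h2 := Real.exp_one_lt_d9
  have h3 := Real.exp_pos (1 / 2)
  nlinarith

lemma exp_one_lt_four : Real.exp 1 < 4 := by
  have h2 := Real.exp_one_lt_d9
  linarith

lemma one_sub_exp {x : ℝ} (h0 : 0 < x) (h1 : x ≤ 1) : x / 2 ≤ 1 - Real.exp (-x) := by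
  have h2 : Real.exp (-x) = 1 / Real.exp x := by rw [Real.exp_neg, one_div]
  rw [h2]
  have h3 := Real.add_one_le_exp x
  have h4 : 1 / Real.exp x ≤ 1 / (x + 1) := by gcongr
  have h5 : 1 / (x + 1) ≤ 1 - x / 2 := by
    rw [div_le_iff₀ (by linarith)]
    nlinarith
  linarith

/-- the main chain -/
lemma chain_main (h0 : (0 : Fin (n + 3)) ∉ P) (h1 : (1 : Fin (n + 3)) ∉ P)
    (h2 : (2 : Fin (n + 3)) ∉ P) {g τ t s : ℝ} (hg : 0 < g) (hg1 : g ≤ 1) (hτ : 0 < τ)
    (hτ1 : τ ≤ 1) (ht : 0 < t) (ht1 : t ≤ 1 / 2) (hs : 1 ≤ s)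
    (hM : ∀ j, (Real.exp (-g) ^ (2 ^ j) * Real.exp t) ^ (M j) ≤ Real.exp (τ / 2)) :
    ∃ S ≤ 1 / 2 * Real.log (256 * s / (g * τ)), ChainSum (Dom M P)
      (V P 0 0 0 (Complex.exp (-1)) 0)
      (V P (Real.exp (-g) : ℝ) (Real.exp (1 - τ) : ℝ) (Real.exp t : ℝ)
        (Complex.exp (-s)) 1) S := by
  have he1 := Real.exp_pos 1
  have he4 := exp_one_lt_four
  have hct : Real.exp t < 2 := lt_of_le_of_lt (Real.exp_le_exp.2 ht1) exp_half_lt
  have hc0 : 0 < Real.exp t := Real.exp_pos t
  have hcn : ‖((Real.exp t : ℝ) : ℂ)‖ = Real.exp t := by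
    rw [Complex.norm_real, Real.norm_of_nonneg hc0.le]
  have hgn : ‖((Real.exp (-g) : ℝ) : ℂ)‖ = Real.exp (-g) := by
    rw [Complex.norm_real, Real.norm_of_nonneg (Real.exp_pos _).le]
  have hg' : Real.exp (-g) < 1 := by rw [Real.exp_lt_one_iff]; linarith
  have hwn : ∀ x : ℝ, 0 < x → ‖Complex.exp (-(x : ℂ))‖ < 4 := by
    intro x hx
    rw [Complex.norm_exp]
    have : (-(x : ℂ)).re = -x := by simp
    rw [this]
    have : Real.exp (-x) < 1 := by rw [Real.exp_lt_one_iff]; linarith
    linarith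
  have hball : ∀ ζ : ℂ, ζ ∈ ball (0 : ℂ) 1 → ‖ζ‖ < 1 := fun ζ hζ => by simpa using hζ
  -- step A
  have hA : ChainSum (Dom M P) (V P 0 0 0 (Complex.exp (-1)) 0)
      (V P 0 0 (Real.exp t : ℝ) (Complex.exp (-1)) 1) (poincare 0 (1 / 2)) := by
    have h3 := ChainSum.single (D := Dom M P)
      (fun ζ => V P 0 0 (ζ * (2 * (Real.exp t : ℝ))) (Complex.exp (-1)) (ζ * 2)) 0 (1 / 2)
      (by simp) (by norm_num) (V_diffOn (by fun_prop) (by fun_prop) (by fun_prop) (by fun_prop)
        (by fun_prop)) (fun ζ hζ => by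
          have hζ' := hball ζ hζ
          apply V_mem h0 h1 h2
          · simp
          · simp
          · rw [norm_mul, norm_mul, hcn, Complex.norm_ofNat]
            nlinarith [norm_nonneg ζ]
          · simpa using hwn 1 one_pos
          · exact Complex.exp_ne_zero _
          · rw [norm_mul, Complex.norm_ofNat]
            nlinarith [norm_nonneg ζ]
          · intro j
            simpa using he1)
    have e1 : (1 / 2 : ℂ) * (2 * ((Real.exp t : ℝ) : ℂ)) = (Real.exp t : ℝ) := by ring
    have e2 : (1 / 2 : ℂ) * 2 = 1 := by norm_num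
    simp only [zero_mul] at h3
    rw [e1, e2] at h3
    exact h3
  -- step B
  set b0 : ℂ := (((s - 1) / (s + 1) : ℝ) : ℂ) with hb0
  have hs1 : 0 < s + 1 := by linarith
  have hb0n : ‖b0‖ ≤ 1 - 2 / (s + 1) := by
    rw [hb0, Complex.norm_real, Real.norm_of_nonneg (div_nonneg (by linarith) hs1.le)]
    apply le_of_eq
    field_simp
    ring
  have hb0n' : ‖b0‖ < 1 := by
    have : 0 < 2 / (s + 1) := by positivity
    linarith
  have hB : ChainSum (Dom M P) (V P 0 0 (Real.exp t : ℝ) (Complex.exp (-1)) 1)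
      (V P 0 0 (Real.exp t : ℝ) (Complex.exp (-s)) 1) (poincare 0 b0) := by
    have h3 := ChainSum.single (D := Dom M P)
      (fun ζ => V P 0 0 (Real.exp t : ℝ) (Complex.exp (-((1 + ζ) / (1 - ζ)))) 1) 0 b0
      (by simp) hb0n' (V_diffOn (by fun_prop) (by fun_prop) (by fun_prop) (by
          intro ζ hζ
          apply DifferentiableAt.differentiableWithinAt
          have hne : (1 : ℂ) - ζ ≠ 0 := by
            intro h
            have h4 := hball ζ hζ
            rw [← sub_eq_zero.1 h, norm_one] at h4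
            exact lt_irrefl _ h4
          apply DifferentiableAt.cexp
          apply DifferentiableAt.fun_neg
          exact (by fun_prop : DifferentiableAt ℂ (fun ζ : ℂ => 1 + ζ) ζ).fun_div
            (by fun_prop : DifferentiableAt ℂ (fun ζ : ℂ => 1 - ζ) ζ) hne)
        (by fun_prop)) (fun ζ hζ => by
          have hζ' := hball ζ hζ
          apply V_mem h0 h1 h2
          · simp
          · simp
          · rw [hcn]; linarith
          · rw [Complex.norm_exp]
            have h5 : 0 ≤ ((1 + ζ) / (1 - ζ)).re := by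
              rw [Complex.div_re, ← add_div]
              apply div_nonneg _ (Complex.normSq_nonneg _)
              simp only [Complex.add_re, Complex.one_re, Complex.sub_re, Complex.add_im,
                Complex.one_im, Complex.sub_im]
              have h6 : ζ.re ^ 2 + ζ.im ^ 2 = ‖ζ‖ ^ 2 := by
                rw [Complex.sq_norm, Complex.normSq_apply]; ring
              nlinarith [norm_nonneg ζ]
            have h7 : Real.exp (-((1 + ζ) / (1 - ζ))).re ≤ 1 := by
              rw [Real.exp_le_one_iff, Complex.neg_re]; linarith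
            linarith
          · exact Complex.exp_ne_zero _
          · simp
          · intro j
            simpa using he1)
    have e1 : (1 + b0) / (1 - b0) = s := by
      have hs' : ((s : ℂ) + 1) ≠ 0 := by exact_mod_cast hs1.ne'
      rw [hb0]
      push_cast
      have e2 : (1 : ℂ) + (s - 1) / (s + 1) = 2 * s / (s + 1) := by field_simp; ring
      have e3 : (1 : ℂ) - (s - 1) / (s + 1) = 2 / (s + 1) := by field_simp; ring
      rw [e2, e3]
      field_simp
    simp only [e1] at h3
    simpa using h3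
  -- step C
  have hC : ChainSum (Dom M P) (V P 0 0 (Real.exp t : ℝ) (Complex.exp (-s)) 1)
      (V P (Real.exp (-g) : ℝ) 0 (Real.exp t : ℝ) (Complex.exp (-s)) 1)
      (poincare 0 (Real.exp (-g) : ℝ)) := by
    exact ChainSum.single (D := Dom M P)
      (fun ζ => V P ζ 0 (Real.exp t : ℝ) (Complex.exp (-s)) 1) 0 (Real.exp (-g) : ℝ)
      (by simp) (by rw [hgn]; exact hg') (V_diffOn (by fun_prop) (by fun_prop) (by fun_prop)
        (by fun_prop) (by fun_prop)) (fun ζ hζ => by
          have hζ' := hball ζ hζ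
          apply V_mem h0 h1 h2
          · exact hζ'
          · simp
          · rw [hcn]; linarith
          · exact hwn s (by linarith)
          · exact Complex.exp_ne_zero _
          · simp
          · intro j
            simpa using he1)
  -- step D
  have hτn : ‖((Real.exp (-(τ / 2)) : ℝ) : ℂ)‖ = Real.exp (-(τ / 2)) := by
    rw [Complex.norm_real, Real.norm_of_nonneg (Real.exp_pos _).le]
  have hD : ChainSum (Dom M P) (V P (Real.exp (-g) : ℝ) 0 (Real.exp t : ℝ) (Complex.exp (-s)) 1)
      (V P (Real.exp (-g) : ℝ) (Real.exp (1 - τ) : ℝ) (Real.exp t : ℝ) (Complex.exp (-s)) 1)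
      (poincare 0 (Real.exp (-(τ / 2)) : ℝ)) := by
    have hr : ‖((Real.exp (1 - τ / 2) : ℝ) : ℂ)‖ = Real.exp (1 - τ / 2) := by
      rw [Complex.norm_real, Real.norm_of_nonneg (Real.exp_pos _).le]
    have hr1 : Real.exp (1 - τ / 2) < Real.exp 1 := by
      rw [Real.exp_lt_exp]; linarith
    have h3 := ChainSum.single (D := Dom M P)
      (fun ζ => V P (Real.exp (-g) : ℝ) (ζ * (Real.exp (1 - τ / 2) : ℝ)) (Real.exp t : ℝ)
        (Complex.exp (-s)) 1) 0 (Real.exp (-(τ / 2)) : ℝ)
      (by simp) (by rw [hτn, Real.exp_lt_one_iff]; linarith) (V_diffOn (by fun_prop)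
        (by fun_prop) (by fun_prop) (by fun_prop) (by fun_prop)) (fun ζ hζ => by
          have hζ' := hball ζ hζ
          apply V_mem h0 h1 h2
          · rw [hgn]; exact hg'
          · rw [norm_mul, hr]
            nlinarith [norm_nonneg ζ, Real.exp_pos (1 - τ / 2)]
          · rw [hcn]; linarith
          · exact hwn s (by linarith)
          · exact Complex.exp_ne_zero _
          · simp
          · intro j
            rw [hgn, hcn, norm_mul, hr]
            have h4 : 0 < Real.exp (1 - τ / 2) := Real.exp_pos _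
            calc (Real.exp (-g) ^ (2 ^ j) * Real.exp t) ^ (M j) * (‖ζ‖ * Real.exp (1 - τ / 2))
                ≤ Real.exp (τ / 2) * (‖ζ‖ * Real.exp (1 - τ / 2)) := by
                  gcongr
                  exact hM j
              _ = ‖ζ‖ * Real.exp 1 := by
                  rw [show (1 : ℝ) = τ / 2 + (1 - τ / 2) by ring, Real.exp_add]
                  rw [show (τ / 2 + (1 - τ / 2) - τ / 2) = 1 - τ / 2 by ring]
                  ring
              _ < 1 * Real.exp 1 := by gcongr
              _ = Real.exp 1 := one_mul _)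
    have e1 : ((Real.exp (-(τ / 2)) : ℝ) : ℂ) * ((Real.exp (1 - τ / 2) : ℝ) : ℂ) =
        ((Real.exp (1 - τ) : ℝ) : ℂ) := by
      rw [← Complex.ofReal_mul, ← Real.exp_add]
      congr 2
      ring
    simp only [zero_mul] at h3
    rw [e1] at h3
    exact h3
  refine ⟨_, ?_, ((hA.trans hB).trans hC).trans hD⟩
  -- the estimate
  have eA : poincare 0 (1 / 2) ≤ 1 / 2 * Real.log (2 / (1 / 2)) :=
    poincare_zero_left_le (by norm_num) (by norm_num)
  have eB : poincare 0 b0 ≤ 1 / 2 * Real.log (2 / (2 / (s + 1))) :=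
    poincare_zero_left_le (by positivity) hb0n
  have eC : poincare 0 (Real.exp (-g) : ℝ) ≤ 1 / 2 * Real.log (2 / (g / 2)) := by
    apply poincare_zero_left_le (by positivity)
    rw [hgn]
    have := one_sub_exp hg hg1
    linarith
  have eD : poincare 0 (Real.exp (-(τ / 2)) : ℝ) ≤ 1 / 2 * Real.log (2 / (τ / 2 / 2)) := by
    apply poincare_zero_left_le (by positivity)
    rw [hτn]
    have := one_sub_exp (x := τ / 2) (by linarith) (by linarith)
    linarith
  have eB' : Real.log (2 / (2 / (s + 1))) ≤ Real.log (2 * s) := by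
    apply Real.log_le_log (by positivity)
    have : 2 / (2 / (s + 1)) = s + 1 := by field_simp
    rw [this]; linarith
  have e4 : Real.log (2 / (1 / 2)) + Real.log (2 * s) + Real.log (2 / (g / 2)) +
      Real.log (2 / (τ / 2 / 2)) = Real.log (256 * s / (g * τ)) := by
    have hs0 : 0 < s := by linarith
    rw [← Real.log_mul (by norm_num) (by positivity), ← Real.log_mul (by positivity)
      (by positivity), ← Real.log_mul (by positivity) (by positivity)]
    congr 1
    field_simp
    ring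
  linarith

lemma bdist_le {m : ℕ} {D : Set (EuclideanSpace ℂ (Fin m))} {z w : EuclideanSpace ℂ (Fin m)}
    (hz : z ∈ D) (hw : w ∉ D) : bdist D z ≤ dist z w := by
  obtain ⟨y, hy, hyd⟩ := exists_mem_frontier_infDist_compl_eq_dist hz
    (fun h => hw (by rw [h]; exact mem_univ w))
  calc bdist D z ≤ dist z y := infDist_le_dist_of_mem hy
    _ = infDist z Dᶜ := hyd.symm
    _ ≤ dist z w := infDist_le_dist_of_mem hw

lemma bdist_pos {m : ℕ} {D : Set (EuclideanSpace ℂ (Fin m))} {z : EuclideanSpace ℂ (Fin m)}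
    (hD : IsOpen D) (hz : z ∈ D) {w : EuclideanSpace ℂ (Fin m)} (hw : w ∉ D) :
    0 < bdist D z := by
  obtain ⟨y, hy, _⟩ := exists_mem_frontier_infDist_compl_eq_dist hz
    (fun h => hw (by rw [h]; exact mem_univ w))
  have h1 : z ∉ frontier D := by
    rw [hD.frontier_eq]
    exact fun h => h.2 hz
  exact (isClosed_frontier.notMem_iff_infDist_pos ⟨y, hy⟩).1 h1

lemma V_dist (a a' b c w d : ℂ) : dist (V P a b c w d) (V P a' b c w d) = ‖a - a'‖ := by
  rw [dist_eq_norm]
  have : V P a b c w d - V P a' b c w d = PiLp.single 2 0 (a - a') := by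
    ext i
    rw [PiLp.sub_apply, V_apply, V_apply, PiLp.single_apply]
    split_ifs <;> simp
  rw [this, PiLp.norm_single]

/-- distance to the boundary -/
lemma bdist_V {g τ t K : ℝ} (hτ : 0 < τ) (hg : 0 < g)
    (J : ℕ) (hK : K = 2 ^ J * M J) (hK0 : τ ≤ K) (hKg : K * g = M J * t) {w d : ℂ}
    (hz : V P (Real.exp (-g) : ℝ) (Real.exp (1 - τ) : ℝ) (Real.exp t : ℝ) w d ∈ Dom M P) :
    bdist (Dom M P) (V P (Real.exp (-g) : ℝ) (Real.exp (1 - τ) : ℝ) (Real.exp t : ℝ) w d) ≤
      2 * τ / K := by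
  have hK' : 0 < K := by linarith
  have h1 : V P (Real.exp (-g + τ / K) : ℝ) (Real.exp (1 - τ) : ℝ) (Real.exp t : ℝ) w d ∉
      Dom M P := by
    intro h
    have h2 := (mem_dom.1 h).2.2.1 J
    rw [V_zero, V_one, V_two] at h2
    simp only [Complex.norm_real, Real.norm_of_nonneg (Real.exp_pos _).le] at h2
    rw [← Real.exp_nat_mul, ← Real.exp_add, ← Real.exp_nat_mul, ← Real.exp_add,
      Real.exp_lt_exp] at h2
    push_cast at h2
    have h3 : (M J : ℝ) * (2 ^ J * (-g + τ / K) + t) = τ := by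
      have : (M J : ℝ) * (2 ^ J * (-g + τ / K) + t) = -(K * g) + K * (τ / K) + M J * t := by
        rw [hK]; ring
      rw [this, hKg]
      field_simp
      ring
    rw [h3] at h2
    linarith
  refine (bdist_le hz h1).trans ?_
  rw [V_dist, ← Complex.ofReal_sub, Complex.norm_real, Real.norm_eq_abs, Real.exp_add,
    abs_sub_comm]
  have h4 : 0 < τ / K := by positivity
  have h5 : τ / K ≤ 1 := by rw [div_le_one hK']; exact hK0
  have h6 := Real.exp_bound_div_one_sub_of_interval h4.le
  have h7 : Real.exp (τ / K) - 1 ≤ 2 * (τ / K) := by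
    have h8 := Real.abs_exp_sub_one_le (x := τ / K) (by rw [abs_of_pos h4]; exact h5)
    rw [abs_of_pos h4] at h8
    exact (le_abs_self _).trans h8
  have h9 : 0 ≤ Real.exp (τ / K) - 1 := by
    have := Real.add_one_le_exp (τ / K)
    linarith
  have h10 : Real.exp (-g) ≤ 1 := by rw [Real.exp_le_one_iff]; linarith
  have h11 := Real.exp_pos (-g)
  have e1 : Real.exp (-g) * Real.exp (τ / K) - Real.exp (-g) =
      Real.exp (-g) * (Real.exp (τ / K) - 1) := by ring
  rw [e1, abs_of_nonneg (by positivity)]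
  calc Real.exp (-g) * (Real.exp (τ / K) - 1) ≤ 1 * (2 * (τ / K)) := by
        apply mul_le_mul h10 h7 h9 zero_le_one
    _ = 2 * τ / K := by ring

end Q72.Kob
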