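import Mathlib
import Pool.Agent.Q72.Kob.Est

/-!
# The sequence of exponents and the conclusion
-/

set_option autoImplicit false

open Metric Set Filter Topology

namespace Q72.Kob

/-- the growth condition -/
noncomputable def Aexp (k : ℕ) (m : ℝ) : ℝ :=
  512 * (k + 1) ^ 2 * (k + 2) ^ 2 * 2 ^ (k + 1) * (m + 1)

/-- the exponents -/
noncomputable def Mseq : ℕ → ℕ
  | 0 => 0
  | k + 1 => Mseq k + ⌈Real.exp (Aexp k (Mseq k))⌉₊

lemma Mseq_zero : Mseq 0 = 0 := rfl

lemma Mseq_succ (k : ℕ) : Mseq (k + 1) = Mseq k + ⌈Real.exp (Aexp k (Mseq k))⌉₊ := rfl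

lemma Mseq_mono : Monotone Mseq := monotone_nat_of_le_succ fun k => by
  rw [Mseq_succ]; exact Nat.le_add_right _ _

lemma Mseq_ge (k : ℕ) : Real.exp (Aexp k (Mseq k)) ≤ (Mseq (k + 1) : ℝ) := by
  rw [Mseq_succ]
  push_cast
  have := Nat.le_ceil (Real.exp (Aexp k (Mseq k)))
  have h2 : (0 : ℝ) ≤ Mseq k := Nat.cast_nonneg _
  linarith

/-- parameters -/
noncomputable def tau (k : ℕ) : ℝ := 1 / (k + 2)
noncomputable def tt (k : ℕ) : ℝ := 1 / (2 * (k + 2) * (Mseq k + 1))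
noncomputable def gg (k : ℕ) : ℝ := tt k / 2 ^ (k + 1)
noncomputable def KK (k : ℕ) : ℝ := 2 ^ (k + 1) * Mseq (k + 1)

lemma tau_pos (k : ℕ) : 0 < tau k := by unfold tau; positivity
lemma tau_le (k : ℕ) : tau k ≤ 1 / 2 := by
  unfold tau
  apply one_div_le_one_div_of_le two_pos
  have : (0 : ℝ) ≤ k := Nat.cast_nonneg _
  linarith
lemma tt_pos (k : ℕ) : 0 < tt k := by unfold tt; positivity

lemma tt_mul (k : ℕ) : tt k * (Mseq k + 1) = tau k / 2 := by
  unfold tt tau
  have h : (0 : ℝ) < Mseq k + 1 := by positivity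
  have h2 : (0 : ℝ) < (k : ℝ) + 2 := by positivity
  field_simp

lemma tt_le_tau (k : ℕ) : tt k ≤ tau k / 2 := by
  rw [← tt_mul]
  have h1 := tt_pos k
  have h : (0 : ℝ) ≤ Mseq k := Nat.cast_nonneg _
  nlinarith

lemma tt_le (k : ℕ) : tt k ≤ 1 / 2 := by
  have := tt_le_tau k
  have := tau_le k
  linarith

lemma gg_pos (k : ℕ) : 0 < gg k := by unfold gg; have := tt_pos k; positivity

lemma gg_le_tt (k : ℕ) : gg k ≤ tt k := by
  unfold gg
  apply div_le_self (tt_pos k).le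
  exact one_le_pow₀ (by norm_num)

lemma gg_le (k : ℕ) : gg k ≤ 1 := by
  have := gg_le_tt k
  have := tt_le k
  linarith

lemma KK_gg (k : ℕ) : KK k * gg k = Mseq (k + 1) * tt k := by
  unfold KK gg
  field_simp

lemma cond (k j : ℕ) :
    (Real.exp (-gg k) ^ (2 ^ j) * Real.exp (tt k)) ^ (Mseq j) ≤ Real.exp (tau k / 2) := by
  rw [← Real.exp_nat_mul, ← Real.exp_add, ← Real.exp_nat_mul, Real.exp_le_exp]
  push_cast
  have h1 := tt_pos k
  have h2 := gg_pos k
  have h3 : (0 : ℝ) ≤ Mseq j := Nat.cast_nonneg _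
  by_cases hj : j ≤ k
  · have h4 : (Mseq j : ℝ) ≤ Mseq k := by exact_mod_cast Mseq_mono hj
    have h5 := tt_mul k
    have h6 : (2 : ℝ) ^ j * -gg k + tt k ≤ tt k := by
      have : 0 < (2 : ℝ) ^ j * gg k := by positivity
      linarith
    calc (Mseq j : ℝ) * (2 ^ j * -gg k + tt k) ≤ Mseq j * tt k := by gcongr
      _ ≤ Mseq k * tt k := by gcongr
      _ ≤ tau k / 2 := by nlinarith
  · have h4 : (2 : ℝ) ^ (k + 1) ≤ 2 ^ j := by
      apply pow_le_pow_right₀ (by norm_num)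
      omega
    have h5 : (2 : ℝ) ^ (k + 1) * gg k = tt k := by unfold gg; field_simp
    have h6 : (2 : ℝ) ^ j * -gg k + tt k ≤ 0 := by
      have : (2 : ℝ) ^ (k + 1) * gg k ≤ 2 ^ j * gg k := by gcongr
      linarith
    have h7 : (Mseq j : ℝ) * (2 ^ j * -gg k + tt k) ≤ 0 := mul_nonpos_of_nonneg_of_nonpos h3 h6
    have := tau_pos k
    linarith

lemma Aexp_eq (k : ℕ) :
    Aexp k (Mseq k) = (k + 1) * (256 * (k + 1 : ℝ) / (gg k * tau k)) := by
  unfold Aexp gg tt tau
  have h : (0 : ℝ) < Mseq k + 1 := by positivity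
  have h2 : (0 : ℝ) < (k : ℝ) + 2 := by positivity
  field_simp
  ring

lemma Aexp_pos (k : ℕ) : 0 < Aexp k (Mseq k) := by
  unfold Aexp
  have h : (0 : ℝ) < Mseq k + 1 := by positivity
  positivity

lemma M_pos (k : ℕ) : (1 : ℝ) ≤ Mseq (k + 1) := by
  refine le_trans ?_ (Mseq_ge k)
  exact Real.one_le_exp (Aexp_pos k).le

lemma KK_ge (k : ℕ) : (Mseq (k + 1) : ℝ) ≤ KK k := by
  unfold KK
  have h1 : (1 : ℝ) ≤ 2 ^ (k + 1) := one_le_pow₀ (by norm_num)
  have h2 := M_pos k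
  nlinarith

lemma tau_le_KK (k : ℕ) : tau k ≤ KK k := by
  have := KK_ge k
  have := M_pos k
  have := tau_le k
  linarith

/-- first estimate -/
lemma est1 (k : ℕ) :
    256 * (k + 1 : ℝ) / (gg k * tau k) * (2 * tau k / KK k) ≤ 1 / (k + 1) := by
  have h1 := gg_pos k
  have h2 := tau_pos k
  have h3 := M_pos k
  have h4 : 0 < KK k := lt_of_lt_of_le (by linarith) (KK_ge k)
  have e1 : 256 * (k + 1 : ℝ) / (gg k * tau k) * (2 * tau k / KK k) =
      512 * (k + 1) / (KK k * gg k) := by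
    field_simp
    ring
  rw [e1, KK_gg]
  have h5 : Aexp k (Mseq k) ≤ Mseq (k + 1) := by
    refine le_trans ?_ (Mseq_ge k)
    have := Real.add_one_le_exp (Aexp k (Mseq k))
    linarith
  have h6 : Aexp k (Mseq k) * tt k ≤ Mseq (k + 1) * tt k := by
    have := tt_pos k
    gcongr
  have h7 : 512 * (k + 1 : ℝ) ^ 2 ≤ Aexp k (Mseq k) * tt k := by
    have e2 : Aexp k (Mseq k) * tt k = 256 * (k + 1) ^ 2 * (k + 2) * 2 ^ (k + 1) := by
      unfold Aexp tt
      have h : (0 : ℝ) < Mseq k + 1 := by positivity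
      have h2 : (0 : ℝ) < (k : ℝ) + 2 := by positivity
      field_simp
      ring
    rw [e2]
    have h8 : (1 : ℝ) ≤ 2 ^ (k + 1) := one_le_pow₀ (by norm_num)
    have h9 : (0 : ℝ) ≤ k := Nat.cast_nonneg _
    have h10 : (2 : ℝ) ≤ (k + 2) * 2 ^ (k + 1) := by nlinarith
    have h11 : (0 : ℝ) ≤ 256 * (k + 1) ^ 2 := by positivity
    have h12 : (256 : ℝ) * (k + 1) ^ 2 * 2 ≤ 256 * (k + 1) ^ 2 * ((k + 2) * 2 ^ (k + 1)) :=
      mul_le_mul_of_nonneg_left h10 h11
    linarith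
  have h8 : (0 : ℝ) < Mseq (k + 1) * tt k := by
    have := tt_pos k
    positivity
  rw [div_le_div_iff₀ h8 (by positivity)]
  nlinarith

/-- second estimate -/
lemma est2 (k : ℕ) :
    (k + 1) * (256 * (k + 1 : ℝ) / (gg k * tau k)) ≤ -Real.log (2 * tau k / KK k) := by
  rw [← Aexp_eq]
  have h2 := tau_pos k
  have h3 := M_pos k
  have h4 : 0 < KK k := lt_of_lt_of_le (by linarith) (KK_ge k)
  have h5 : 2 * tau k / KK k ≤ (Real.exp (Aexp k (Mseq k)))⁻¹ := by
    rw [div_le_iff₀ h4, ← div_eq_inv_mul, le_div_iff₀ (Real.exp_pos _)]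
    have h6 := tau_le k
    calc 2 * tau k * Real.exp (Aexp k (Mseq k)) ≤ 1 * Mseq (k + 1) := by
          apply mul_le_mul (by linarith) (Mseq_ge k) (Real.exp_pos _).le zero_le_one
      _ = Mseq (k + 1) := one_mul _
      _ ≤ KK k := KK_ge k
  have h6 : Real.log (2 * tau k / KK k) ≤ Real.log (Real.exp (Aexp k (Mseq k)))⁻¹ :=
    Real.log_le_log (by positivity) h5
  rw [Real.log_inv, Real.log_exp] at h6
  linarith

variable {n : ℕ} {P : Finset (Fin (n + 3))}

/-- the boundary point -/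
noncomputable def zeta0 (P : Finset (Fin (n + 3))) : X n := V P 1 (Real.exp 1 : ℝ) 1 0 1

/-- the sequence of points -/
noncomputable def zz (P : Finset (Fin (n + 3))) (k : ℕ) : X n :=
  V P (Real.exp (-gg k) : ℝ) (Real.exp (1 - tau k) : ℝ) (Real.exp (tt k) : ℝ)
    (Complex.exp (-((k + 1 : ℝ) : ℂ))) 1

lemma tau_tendsto : Tendsto tau atTop (𝓝 0) := by
  have h1 := tendsto_one_div_add_atTop_nhds_zero_nat (𝕜 := ℝ)
  have h2 := h1.comp (tendsto_add_atTop_nat 1)
  refine h2.congr fun k => ?_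
  unfold tau
  simp only [Function.comp]
  push_cast
  ring_nf

lemma tt_tendsto : Tendsto tt atTop (𝓝 0) := by
  refine squeeze_zero (fun k => (tt_pos k).le) tt_le_tau ?_
  simpa using tau_tendsto.div_const 2

lemma gg_tendsto : Tendsto gg atTop (𝓝 0) :=
  squeeze_zero (fun k => (gg_pos k).le) gg_le_tt tt_tendsto

lemma zz_tendsto (P : Finset (Fin (n + 3))) : Tendsto (zz P) atTop (𝓝 (zeta0 P)) := by
  have h1 : Tendsto (fun k => ((Real.exp (-gg k) : ℝ) : ℂ)) atTop (𝓝 1) := by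
    have := (Real.continuous_exp.tendsto _).comp gg_tendsto.neg
    rw [neg_zero, Real.exp_zero] at this
    have h := (Complex.continuous_ofReal.tendsto _).comp this
    rw [Complex.ofReal_one] at h
    exact h
  have h2 : Tendsto (fun k => ((Real.exp (1 - tau k) : ℝ) : ℂ)) atTop
      (𝓝 ((Real.exp 1 : ℝ) : ℂ)) := by
    have := (Real.continuous_exp.tendsto _).comp (tau_tendsto.const_sub 1)
    rw [sub_zero] at this
    exact (Complex.continuous_ofReal.tendsto _).comp this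
  have h3 : Tendsto (fun k => ((Real.exp (tt k) : ℝ) : ℂ)) atTop (𝓝 1) := by
    have := (Real.continuous_exp.tendsto _).comp tt_tendsto
    rw [Real.exp_zero] at this
    have h := (Complex.continuous_ofReal.tendsto _).comp this
    rw [Complex.ofReal_one] at h
    exact h
  have h4 : Tendsto (fun k : ℕ => Complex.exp (-((k + 1 : ℝ) : ℂ))) atTop (𝓝 0) := by
    rw [tendsto_zero_iff_norm_tendsto_zero]
    have h5 : Tendsto (fun k : ℕ => Real.exp (-((k : ℝ) + 1))) atTop (𝓝 0) := by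
      apply Real.tendsto_exp_neg_atTop_nhds_zero.comp
      exact tendsto_atTop_add_const_right _ _ tendsto_natCast_atTop_atTop
    refine h5.congr fun k => ?_
    rw [Complex.norm_exp]
    simp
  have h5 : Tendsto (fun _ : ℕ => (1 : ℂ)) atTop (𝓝 1) := tendsto_const_nhds
  have h6 := h1.prodMk_nhds (h2.prodMk_nhds (h3.prodMk_nhds (h4.prodMk_nhds h5)))
  have h7 := ((V_cont (P := P)).tendsto _).comp h6
  exact h7

lemma zz_mem (h0 : (0 : Fin (n + 3)) ∉ P) (h1 : (1 : Fin (n + 3)) ∉ P)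
    (h2 : (2 : Fin (n + 3)) ∉ P) (k : ℕ) : zz P k ∈ Dom Mseq P := by
  have hn : ∀ x : ℝ, ‖((Real.exp x : ℝ) : ℂ)‖ = Real.exp x := by
    intro x
    rw [Complex.norm_real, Real.norm_of_nonneg (Real.exp_pos _).le]
  have h4 := exp_one_lt_four
  apply V_mem h0 h1 h2
  · rw [hn, Real.exp_lt_one_iff]
    have := gg_pos k
    linarith
  · rw [hn]
    have : Real.exp (1 - tau k) < Real.exp 1 := by
      rw [Real.exp_lt_exp]
      have := tau_pos k
      linarith
    linarith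
  · rw [hn]
    have : Real.exp (tt k) ≤ Real.exp (1 / 2) := Real.exp_le_exp.2 (tt_le k)
    have := exp_half_lt
    linarith
  · rw [Complex.norm_exp]
    have : Real.exp (-((k + 1 : ℝ) : ℂ)).re ≤ 1 := by
      rw [Real.exp_le_one_iff]
      simp only [Complex.neg_re, Complex.ofReal_re]
      have : (0 : ℝ) ≤ k := Nat.cast_nonneg _
      linarith
    linarith
  · exact Complex.exp_ne_zero _
  · simp
  · intro j
    rw [hn, hn, hn]
    calc (Real.exp (-gg k) ^ (2 ^ j) * Real.exp (tt k)) ^ (Mseq j) * Real.exp (1 - tau k)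
        ≤ Real.exp (tau k / 2) * Real.exp (1 - tau k) := by
          have := cond k j
          gcongr
      _ = Real.exp (1 - tau k / 2) := by rw [← Real.exp_add]; congr 1; ring
      _ < Real.exp 1 := by
          rw [Real.exp_lt_exp]
          have := tau_pos k
          linarith

lemma zeta0_notMem (P : Finset (Fin (n + 3))) : zeta0 P ∉ Dom Mseq P := by
  intro h
  have := (mem_dom.1 h).1
  rw [zeta0, V_zero] at this
  simp at this

lemma zeta0_frontier (h0 : (0 : Fin (n + 3)) ∉ P) (h1 : (1 : Fin (n + 3)) ∉ P)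
    (h2 : (2 : Fin (n + 3)) ∉ P) : zeta0 P ∈ frontier (Dom Mseq P) := by
  rw [(dom_isOpen Mseq_zero P).frontier_eq]
  refine ⟨?_, zeta0_notMem P⟩
  exact mem_closure_of_tendsto (zz_tendsto P) (Eventually.of_forall (zz_mem h0 h1 h2))

/-- the Kobayashi distance along the sequence -/
lemma kob_le (h0 : (0 : Fin (n + 3)) ∉ P) (h1 : (1 : Fin (n + 3)) ∉ P)
    (h2 : (2 : Fin (n + 3)) ∉ P) {z0 : X n} (hz0 : z0 ∈ Dom Mseq P) :
    ∃ C : ℝ, ∀ k, kobayashi (Dom Mseq P) z0 (zz P k) ≤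
      C + 1 / 2 * Real.log (256 * (k + 1 : ℝ) / (gg k * tau k)) := by
  have hbase : V P 0 0 0 (Complex.exp (-1)) 0 ∈ Dom Mseq P := by
    apply V_mem h0 h1 h2
    · simp
    · simp
    · simp
    · rw [Complex.norm_exp]
      have : Real.exp (-1 : ℂ).re ≤ 1 := by
        rw [Real.exp_le_one_iff]; simp
      linarith
    · exact Complex.exp_ne_zero _
    · simp
    · intro j; simp [Real.exp_pos]
  obtain ⟨C, hC⟩ := exists_chain (dom_isOpen Mseq_zero P)
    (dom_connected (M := Mseq) h0 h1 h2).isPreconnected hz0 hbase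
  refine ⟨C, fun k => ?_⟩
  obtain ⟨S, hS, hch⟩ := chain_main (M := Mseq) h0 h1 h2 (gg_pos k) (gg_le k) (tau_pos k)
    (by linarith [tau_le k]) (tt_pos k) (tt_le k) (s := k + 1)
    (by have : (0 : ℝ) ≤ k := Nat.cast_nonneg _
        linarith) (cond k)
  have h3 := kobayashi_le (hC.trans hch)
  refine h3.trans ?_
  linarith

lemma bdist_zz (h0 : (0 : Fin (n + 3)) ∉ P) (h1 : (1 : Fin (n + 3)) ∉ P)
    (h2 : (2 : Fin (n + 3)) ∉ P) (k : ℕ) :
    0 < bdist (Dom Mseq P) (zz P k) ∧ bdist (Dom Mseq P) (zz P k) ≤ 2 * tau k / KK k :=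
  ⟨bdist_pos (dom_isOpen Mseq_zero P) (zz_mem h0 h1 h2 k) (zeta0_notMem P),
    bdist_V (tau_pos k) (gg_pos k) (k + 1) rfl (tau_le_KK k) (KK_gg k) (zz_mem h0 h1 h2 k)⟩

/-- **first estimate fails** -/
lemma fail1 (h0 : (0 : Fin (n + 3)) ∉ P) (h1 : (1 : Fin (n + 3)) ∉ P)
    (h2 : (2 : Fin (n + 3)) ∉ P) {z0 : X n} (hz0 : z0 ∈ Dom Mseq P) :
    Tendsto (fun k => kobayashi (Dom Mseq P) z0 (zz P k) +
      1 / 2 * Real.log (bdist (Dom Mseq P) (zz P k))) atTop atBot := by
  obtain ⟨C, hC⟩ := kob_le h0 h1 h2 hz0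
  have hlim : Tendsto (fun k : ℕ => C - 1 / 2 * Real.log (k + 1 : ℝ)) atTop atBot := by
    have h3 : Tendsto (fun k : ℕ => Real.log (k + 1 : ℝ)) atTop atTop :=
      Real.tendsto_log_atTop.comp (tendsto_atTop_add_const_right _ _ tendsto_natCast_atTop_atTop)
    have h4 : Tendsto (fun k : ℕ => 1 / 2 * Real.log (k + 1 : ℝ)) atTop atTop :=
      h3.const_mul_atTop (by norm_num)
    have h5 := tendsto_atBot_add_const_left _ C (tendsto_neg_atTop_atBot.comp h4)
    refine h5.congr fun k => ?_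
    simp only [Function.comp]
    ring
  refine tendsto_atBot_mono (fun k => ?_) hlim
  obtain ⟨hp, hle⟩ := bdist_zz h0 h1 h2 k
  have h3 := Real.log_le_log hp hle
  have h4 := gg_pos k
  have h5 := tau_pos k
  have h6 : 0 < KK k := lt_of_lt_of_le (by linarith [M_pos k]) (KK_ge k)
  have h7 : Real.log (256 * (k + 1 : ℝ) / (gg k * tau k)) + Real.log (2 * tau k / KK k) ≤
      Real.log (1 / (k + 1)) := by
    rw [← Real.log_mul (by positivity) (by positivity)]
    exact Real.log_le_log (by positivity) (est1 k)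
  rw [one_div ((k : ℝ) + 1), Real.log_inv] at h7
  have := hC k
  linarith

/-- **second estimate fails** -/
lemma fail2 (h0 : (0 : Fin (n + 3)) ∉ P) (h1 : (1 : Fin (n + 3)) ∉ P)
    (h2 : (2 : Fin (n + 3)) ∉ P) {z0 : X n} (hz0 : z0 ∈ Dom Mseq P) :
    Tendsto (fun k => kobayashi (Dom Mseq P) z0 (zz P k) -
      1 / 2 * Real.log (-Real.log (bdist (Dom Mseq P) (zz P k)))) atTop atBot := by
  obtain ⟨C, hC⟩ := kob_le h0 h1 h2 hz0
  have hlim : Tendsto (fun k : ℕ => C - 1 / 2 * Real.log (k + 1 : ℝ)) atTop atBot := by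
    have h3 : Tendsto (fun k : ℕ => Real.log (k + 1 : ℝ)) atTop atTop :=
      Real.tendsto_log_atTop.comp (tendsto_atTop_add_const_right _ _ tendsto_natCast_atTop_atTop)
    have h4 : Tendsto (fun k : ℕ => 1 / 2 * Real.log (k + 1 : ℝ)) atTop atTop :=
      h3.const_mul_atTop (by norm_num)
    have h5 := tendsto_atBot_add_const_left _ C (tendsto_neg_atTop_atBot.comp h4)
    refine h5.congr fun k => ?_
    simp only [Function.comp]
    ring
  refine tendsto_atBot_mono (fun k => ?_) hlim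
  obtain ⟨hp, hle⟩ := bdist_zz h0 h1 h2 k
  have h3 := Real.log_le_log hp hle
  have h4 := gg_pos k
  have h5 := tau_pos k
  have h6 : 0 < KK k := lt_of_lt_of_le (by linarith [M_pos k]) (KK_ge k)
  have h7 : (k + 1) * (256 * (k + 1 : ℝ) / (gg k * tau k)) ≤
      -Real.log (bdist (Dom Mseq P) (zz P k)) := (est2 k).trans (by linarith)
  have h8 := Real.log_le_log (by positivity) h7
  rw [Real.log_mul (by positivity) (by positivity)] at h8
  have := hC k
  linarith

lemma zeroCount_eq (h0 : (0 : Fin (n + 3)) ∉ P) (h1 : (1 : Fin (n + 3)) ∉ P)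
    (h2 : (2 : Fin (n + 3)) ∉ P) : zeroCount (Dom Mseq P) (zeta0 P) = P.card := by
  unfold zeroCount
  rw [← Set.ncard_coe_finset]
  congr 1
  ext i
  simp only [Set.mem_ofPred_eq, Finset.mem_coe]
  constructor
  · rintro ⟨hi, _⟩
    rw [zeta0, V_apply] at hi
    split_ifs at hi with a b c d
    · exact absurd hi one_ne_zero
    · exact absurd hi (by exact_mod_cast (Real.exp_pos 1).ne')
    · exact absurd hi one_ne_zero
    · exact d
    · exact absurd hi one_ne_zero
  · intro hi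
    refine ⟨?_, fun z hz => (mem_dom.1 hz).2.2.2 i hi⟩
    rw [zeta0, V_apply, if_neg (by rintro rfl; exact h0 hi), if_neg (by rintro rfl; exact h1 hi),
      if_neg (by rintro rfl; exact h2 hi), if_pos hi]

end Q72.Kob
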